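import Pool.Agent.Helper68.RR.Inf

/-!
# Transitivity on the primes above a given prime, and lifting of elements of inertia groups
-/

set_option autoImplicit false
set_option linter.unusedSectionVars false

open NumberField Pool.Agent.Helper16.TR

open scoped Pointwise

namespace Pool.Agent.Helper68.RR

variable {K Ω : Type} [Field K] [NumberField K] [Field Ω] [Algebra K Ω] [IsGalois K Ω]

instance smulComm : SMulCommClass (Ω ≃ₐ[K] Ω) (𝓞 K) (𝓞 Ω) := by
  constructor
  intro g a b
  apply RingOfIntegers.ext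
  rw [Algebra.smul_def, Algebra.smul_def]
  change g (((algebraMap (𝓞 K) (𝓞 Ω) a : 𝓞 Ω) : Ω) * (b : Ω)) =
    ((algebraMap (𝓞 K) (𝓞 Ω) a : 𝓞 Ω) : Ω) * g (b : Ω)
  rw [map_mul]
  congr 1
  have : ((algebraMap (𝓞 K) (𝓞 Ω) a : 𝓞 Ω) : Ω) = algebraMap K Ω (a : K) := rfl
  rw [this, g.commutes]

instance isInv : Algebra.IsInvariant (𝓞 K) (𝓞 Ω) (Ω ≃ₐ[K] Ω) := by
  constructor
  intro b hb
  have h1 : (b : Ω) ∈ Set.range (algebraMap K Ω) := by
    rw [InfiniteGalois.mem_range_algebraMap_iff_fixed]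
    intro g
    exact congrArg (fun x : 𝓞 Ω => (x : Ω)) (hb g)
  obtain ⟨a, ha⟩ := h1
  have h2 : IsIntegral ℤ a := by
    have h3 : IsIntegral ℤ (b : Ω) := b.2
    rw [← ha] at h3
    exact (isIntegral_algebraMap_iff (algebraMap K Ω).injective).1 h3
  exact ⟨⟨a, h2⟩, RingOfIntegers.ext ha⟩

/-- the Galois group acts transitively on the primes above a given prime -/
theorem transitive (P Q : Ideal (𝓞 Ω)) [P.IsPrime] [Q.IsPrime]
    (h : P.comap (algebraMap (𝓞 K) (𝓞 Ω)) = Q.comap (algebraMap (𝓞 K) (𝓞 Ω))) :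
    ∃ g : Ω ≃ₐ[K] Ω, Q = g • P := by
  let _ : TopologicalSpace (𝓞 Ω) := ⊥
  have : DiscreteTopology (𝓞 Ω) := ⟨rfl⟩
  have : ContinuousSMul (Ω ≃ₐ[K] Ω) (𝓞 Ω) := by
    rw [continuousSMul_iff_stabilizer_isOpen]
    intro x
    have h1 : (MulAction.stabilizer (Ω ≃ₐ[K] Ω) x : Set (Ω ≃ₐ[K] Ω)) =
        (MulAction.stabilizer (Ω ≃ₐ[K] Ω) (x : Ω) : Set (Ω ≃ₐ[K] Ω)) := by
      ext g
      change g • x = x ↔ g (x : Ω) = (x : Ω)
      constructor
      · intro h
        exact congrArg (fun y : 𝓞 Ω => (y : Ω)) h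
      · intro h
        exact RingOfIntegers.ext h
    rw [h1]
    exact stabilizer_isOpen_of_isIntegral (K := K) (x : Ω)
  exact Algebra.IsInvariant.exists_smul_of_under_eq_of_profinite (A := 𝓞 K) P Q h

lemma mem_inertia_smul {P : Ideal (𝓞 Ω)} {g γ : Ω ≃ₐ[K] Ω}
    (h : γ ∈ (g • P).inertia (Ω ≃ₐ[K] Ω)) : g⁻¹ * γ * g ∈ P.inertia (Ω ≃ₐ[K] Ω) := by
  intro x
  have h1 := h (g • x)
  have h2 : g⁻¹ • (γ • (g • x) - g • x) ∈ g⁻¹ • (g • P) :=
    Ideal.smul_mem_pointwise_smul g⁻¹ _ _ h1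
  rw [inv_smul_smul, smul_sub, inv_smul_smul] at h2
  rw [mul_smul, mul_smul]
  exact h2

lemma exists_prime_above (q : Ideal (𝓞 K)) [hq : q.IsMaximal] :
    ∃ P : Ideal (𝓞 Ω), P.IsMaximal ∧ P.comap (algebraMap (𝓞 K) (𝓞 Ω)) = q := by
  have hinj : Function.Injective (algebraMap (𝓞 K) (𝓞 Ω)) := by
    intro a b h
    apply RingOfIntegers.ext
    apply (algebraMap K Ω).injective
    exact congrArg (fun x : 𝓞 Ω => (x : Ω)) h
  obtain ⟨P, hP1, hP2⟩ := Ideal.exists_ideal_over_maximal_of_isIntegral (S := 𝓞 Ω) q (by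
    rw [(RingHom.injective_iff_ker_eq_bot _).1 hinj]
    exact bot_le)
  exact ⟨P, hP1, hP2⟩

section lift

/-- surjectivity of the restriction of inertia groups at finite level -/
lemma lift_fin (M F E : Type) [Field M] [NumberField M] [Field F] [NumberField F] [Field E]
    [NumberField E] [Algebra M F] [Algebra F E] [Algebra M E] [IsScalarTower M F E]
    [IsGalois M E] [IsGalois M F] (P : Ideal (𝓞 E)) [hP : P.IsMaximal] (σ : F ≃ₐ[M] F)
    (hσ : σ ∈ (P.comap (algebraMap (𝓞 F) (𝓞 E))).inertia (F ≃ₐ[M] F)) :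
    ∃ τ ∈ P.inertia (E ≃ₐ[M] E), AlgEquiv.restrictNormalHom F τ = σ := by
  have hPF : (P.comap (algebraMap (𝓞 F) (𝓞 E))).IsMaximal := inferInstance
  let I := P.inertia (E ≃ₐ[M] E)
  let J := (P.comap (algebraMap (𝓞 F) (𝓞 E))).inertia (F ≃ₐ[M] F)
  let r : (E ≃ₐ[M] E) →* (F ≃ₐ[M] F) := AlgEquiv.restrictNormalHom F
  have hr : I.map r ≤ J := by
    rintro _ ⟨τ, hτ, rfl⟩
    exact restrict_inertia M F E P hτ
  have hker : inF M F E P = I ⊓ r.ker := by
    apply le_antisymm
    · rintro τ hτ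
      refine ⟨inF_le M F E P hτ, ?_⟩
      obtain ⟨κ, hκ, rfl⟩ := hτ
      change r (AlgEquiv.restrictScalarsHom M κ) = 1
      ext x
      have h1 := AlgEquiv.restrictNormal_commutes (AlgEquiv.restrictScalarsHom M κ) F x
      apply (algebraMap F E).injective
      change algebraMap F E ((AlgEquiv.restrictScalarsHom M κ).restrictNormal F x) = _
      rw [h1]
      exact κ.commutes x
    · rintro τ ⟨hτ1, hτ2⟩
      refine mem_inF M F E hτ1 fun x => ?_
      have h1 := AlgEquiv.restrictNormal_commutes τ F x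
      have h2 : τ.restrictNormal F = 1 := hτ2
      rw [h2] at h1
      exact h1.symm
  have hcard : Nat.card (I.map r) = Nat.card J := by
    have h1 : Nat.card I = Nat.card (I.map r) * Nat.card (inF M F E P) := by
      have h2 := Subgroup.card_mul_index (r.comp I.subtype).ker
      rw [Subgroup.index_ker, MonoidHom.range_comp, Subgroup.range_subtype] at h2
      rw [← h2, mul_comm, hker]
      congr 1
      have h3 : (r.comp I.subtype).ker.map I.subtype = I ⊓ r.ker := by
        ext τ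
        constructor
        · rintro ⟨κ, hκ, rfl⟩
          exact ⟨κ.2, hκ⟩
        · rintro ⟨h4, h5⟩
          exact ⟨⟨τ, h4⟩, h5, rfl⟩
      rw [← h3, Subgroup.card_map_of_injective (Subgroup.subtype_injective I)]
    have h2 := ramIdx_mul M F E P
    rw [← card_inF M F E P] at h2
    have h3 : Nat.card J = (P.comap (algebraMap (𝓞 F) (𝓞 E))).ramificationIdx (𝓞 M) :=
      card_inertia M F _
    have h4 : 0 < Nat.card (inF M F E P) := Nat.card_pos
    rw [h3]
    apply Nat.eq_of_mul_eq_mul_right h4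
    rw [← h1]
    exact h2
  have heq : I.map r = J := by
    have : Finite J := inferInstance
    exact Subgroup.eq_of_le_of_card_ge hr hcard.ge
  have h5 : σ ∈ I.map r := by rw [heq]; exact hσ
  obtain ⟨τ, hτ, h⟩ := h5
  exact ⟨τ, hτ, h⟩

lemma isClosed_inertia_cond (P : Ideal (𝓞 Ω)) (x : 𝓞 Ω) :
    IsClosed {γ : Ω ≃ₐ[K] Ω | γ • x - x ∈ P} := by
  rw [← isOpen_compl_iff, isOpen_iff_mem_nhds]
  intro γ hγ
  have h1 : IsOpen ((fun δ : Ω ≃ₐ[K] Ω => γ⁻¹ * δ) ⁻¹'
      (MulAction.stabilizer (Ω ≃ₐ[K] Ω) (x : Ω) : Set (Ω ≃ₐ[K] Ω))) :=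
    (stabilizer_isOpen_of_isIntegral (K := K) (x : Ω)).preimage
      (continuous_const.mul continuous_id)
  refine Filter.mem_of_superset (h1.mem_nhds ?_) ?_
  · change γ⁻¹ * γ ∈ MulAction.stabilizer (Ω ≃ₐ[K] Ω) (x : Ω)
    rw [inv_mul_cancel]; exact one_mem _
  · intro δ hδ hδ'
    apply hγ
    have h2 : (γ⁻¹ * δ) (x : Ω) = x := hδ
    have h3 : δ • x = γ • x := by
      apply RingOfIntegers.ext
      change δ (x : Ω) = γ (x : Ω)
      have h4 := congrArg γ h2
      rwa [← AlgEquiv.mul_apply, mul_inv_cancel_left] at h4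
    change γ • x - x ∈ P
    rw [← h3]
    exact hδ'

/-- the inertia groups at infinite level surject onto the inertia groups at finite level -/
theorem lift_inertia (F : IntermediateField K Ω) [NumberField F] [IsGalois K F] (P : Ideal (𝓞 Ω))
    [hP : P.IsMaximal] (σ : F ≃ₐ[K] F)
    (hσ : σ ∈ (P.comap (algebraMap (𝓞 F) (𝓞 Ω))).inertia (F ≃ₐ[K] F)) :
    ∃ γ ∈ P.inertia (Ω ≃ₐ[K] Ω), AlgEquiv.restrictNormalHom F γ = σ := by
  let R : Set (Ω ≃ₐ[K] Ω) := {γ | ∀ x : F, γ (x : Ω) = ((σ x : F) : Ω)}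
  have hR : IsClosed R := by
    have h0 : R = ⋂ x : F, {γ | γ (x : Ω) = ((σ x : F) : Ω)} := by
      ext γ; simp [R]
    rw [h0]
    refine isClosed_iInter fun x => ?_
    rw [← isOpen_compl_iff, isOpen_iff_mem_nhds]
    intro γ hγ
    have h1 : IsOpen ((fun δ : Ω ≃ₐ[K] Ω => γ⁻¹ * δ) ⁻¹'
        (MulAction.stabilizer (Ω ≃ₐ[K] Ω) (x : Ω) : Set (Ω ≃ₐ[K] Ω))) :=
      (stabilizer_isOpen_of_isIntegral (K := K) (x : Ω)).preimage
        (continuous_const.mul continuous_id)
    refine Filter.mem_of_superset (h1.mem_nhds ?_) ?_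
    · change γ⁻¹ * γ ∈ MulAction.stabilizer (Ω ≃ₐ[K] Ω) (x : Ω)
      rw [inv_mul_cancel]; exact one_mem _
    · intro δ hδ hδ'
      apply hγ
      have h2 : (γ⁻¹ * δ) (x : Ω) = x := hδ
      have h3 : δ (x : Ω) = γ (x : Ω) := by
        have h4 := congrArg γ h2
        rwa [← AlgEquiv.mul_apply, mul_inv_cancel_left] at h4
      change γ (x : Ω) = _
      rw [← h3]
      exact hδ'
  obtain ⟨γ, hγ1, hγ2⟩ := hR.isCompact.inter_iInter_nonempty
    (fun x : 𝓞 Ω => {γ : Ω ≃ₐ[K] Ω | γ • x - x ∈ P}) (fun x => isClosed_inertia_cond P x) (by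
      intro u
      let b := Module.finBasis K F
      let T : Set Ω := (Set.range fun i => ((b i : F) : Ω)) ∪ ((fun x : 𝓞 Ω => (x : Ω)) '' u)
      have hTfin : T.Finite := (Set.finite_range _).union (u.finite_toSet.image _)
      have : Finite T := hTfin
      let E := FiniteGaloisIntermediateField.adjoin K T
      have hTE : T ⊆ E.toIntermediateField := FiniteGaloisIntermediateField.subset_adjoin K T
      have hFE : F ≤ E.toIntermediateField := by
        intro x hx
        have h1 : x = ((∑ i, b.repr ⟨x, hx⟩ i • b i : F) : Ω) := by rw [b.sum_repr]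
        rw [h1]
        push_cast
        refine sum_mem fun i _ => ?_
        exact E.toIntermediateField.smul_mem (hTE (Or.inl ⟨i, rfl⟩))
      have nE : NumberField E.toIntermediateField := NumberField.of_module_finite K _
      let _ : Algebra F E.toIntermediateField := (IntermediateField.inclusion hFE).toAlgebra
      have tow : IsScalarTower K F E.toIntermediateField :=
        IsScalarTower.of_algebraMap_eq' (by ext x; rfl)
      have tow2 : IsScalarTower F E.toIntermediateField Ω :=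
        IsScalarTower.of_algebraMap_eq' (by ext x; rfl)
      have tow3 : IsScalarTower (𝓞 F) (𝓞 E.toIntermediateField) (𝓞 Ω) := by
        apply IsScalarTower.of_algebraMap_eq'
        ext x
        rfl
      have hPE : (P.comap (algebraMap (𝓞 E.toIntermediateField) (𝓞 Ω))).IsMaximal :=
        Ideal.isMaximal_comap_of_isIntegral_of_isMaximal P
      obtain ⟨τ, hτ1, hτ2⟩ := lift_fin K F E.toIntermediateField
        (P.comap (algebraMap (𝓞 E.toIntermediateField) (𝓞 Ω))) σ (by
          rw [Ideal.comap_comap, ← IsScalarTower.algebraMap_eq]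
          exact hσ)
      obtain ⟨γ, rfl⟩ := AlgEquiv.restrictNormalHom_surjective (F := K)
        (K₁ := E.toIntermediateField) Ω τ
      refine ⟨γ, ?_, ?_⟩
      · intro x
        have h1 := AlgEquiv.restrictNormal_commutes
          (AlgEquiv.restrictNormalHom E.toIntermediateField γ) F x
        have h2 := congrArg (fun y : E.toIntermediateField => (y : Ω)) h1
        have h3 : ((algebraMap F E.toIntermediateField x : E.toIntermediateField) : Ω) = x := rfl
        have h4 := res_coe E.toIntermediateField γ (algebraMap F E.toIntermediateField x)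
        rw [h3] at h4
        have h5 : AlgEquiv.restrictNormalHom F
          (AlgEquiv.restrictNormalHom E.toIntermediateField γ) x = σ x := by rw [hτ2]
        change γ (x : Ω) = _
        rw [← h4, ← h5]
        exact h2.symm
      · rw [Set.mem_iInter₂]
        intro x hx
        have hxE : (x : Ω) ∈ E.toIntermediateField := hTE (Or.inr ⟨x, hx, rfl⟩)
        have hxi : IsIntegral ℤ (⟨(x : Ω), hxE⟩ : E.toIntermediateField) := by
          have h3 : IsIntegral ℤ (x : Ω) := x.2
          exact (isIntegral_algebraMap_iff (algebraMap E.toIntermediateField Ω).injective).1 h3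
        obtain ⟨y, hy⟩ : ∃ y : 𝓞 E.toIntermediateField,
            algebraMap (𝓞 E.toIntermediateField) (𝓞 Ω) y = x := ⟨⟨⟨(x : Ω), hxE⟩, hxi⟩, rfl⟩
        have h1 : algebraMap (𝓞 E.toIntermediateField) (𝓞 Ω)
          (AlgEquiv.restrictNormalHom E.toIntermediateField γ • y - y) ∈ P := hτ1 y
        rw [map_sub, algebraMap_smul, hy] at h1
        exact h1)
  refine ⟨γ, ?_, ?_⟩
  · rw [Set.mem_iInter] at hγ2
    exact hγ2
  · ext x
    rw [res_coe]
    exact hγ1 x

end lift

end Pool.Agent.Helper68.RR
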