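import Mathlib

/-!
# Tame inertia groups at finite level

The inertia group `I` of a maximal ideal `P` of the ring of integers of `E` acts on `P / P ^ 2` by
multiplication with elements of the residue field. If the order of `I` is prime to the residue
characteristic, the action is faithful. A Frobenius element `φ` satisfies `φ τ φ⁻¹ = τ ^ q`.
-/

set_option autoImplicit false
set_option linter.unusedSectionVars false

open NumberField

open scoped Pointwise

namespace Pool.Agent.Helper68.RR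

section acts

variable {E : Type} [Field E] [NumberField E] {G : Type} [Group G] [MulSemiringAction G (𝓞 E)]

/-- `σ` acts on `P / P ^ 2` as multiplication with `c` -/
def Acts (P : Ideal (𝓞 E)) (σ : G) (c : 𝓞 E) : Prop := ∀ x ∈ P, σ • x - c * x ∈ P ^ 2

lemma smul_mem_pow {P : Ideal (𝓞 E)} {σ : G} (h : σ • P = P) (n : ℕ) {x : 𝓞 E}
    (hx : x ∈ P ^ n) : σ • x ∈ P ^ n := by
  have h2 : σ • (P ^ n) = P ^ n := by rw [smul_pow', h]
  rw [← h2]
  exact Ideal.smul_mem_pointwise_smul σ x _ hx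

lemma smul_mem_self {P : Ideal (𝓞 E)} {σ : G} (h : σ • P = P) {x : 𝓞 E}
    (hx : x ∈ P) : σ • x ∈ P := by
  rw [← pow_one P] at hx ⊢
  exact smul_mem_pow h 1 hx

lemma inv_smul_eq {P : Ideal (𝓞 E)} {σ : G} (h : σ • P = P) : σ⁻¹ • P = P := by
  conv_lhs => rw [← h, ← mul_smul, inv_mul_cancel, one_smul]

lemma mul_mem_sq {P : Ideal (𝓞 E)} {x y : 𝓞 E} (hx : x ∈ P) (hy : y ∈ P) : x * y ∈ P ^ 2 := by
  rw [pow_two]; exact Ideal.mul_mem_mul hx hy

lemma Acts.one (P : Ideal (𝓞 E)) : Acts P (1 : G) 1 := by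
  intro x _
  rw [one_smul, one_mul, sub_self]
  exact zero_mem _

lemma Acts.mul {P : Ideal (𝓞 E)} {σ τ : G} {c d : 𝓞 E} (hσP : σ • P = P) (hσ : Acts P σ c)
    (hτ : Acts P τ d) : Acts P (σ * τ) (c * d) := by
  intro x hx
  have h1 : σ • (τ • x - d * x) ∈ P ^ 2 := smul_mem_pow hσP 2 (hτ x hx)
  have h2 : σ • (d * x) - c * (d * x) ∈ P ^ 2 := hσ _ (P.mul_mem_left _ hx)
  have h3 := add_mem h1 h2
  rw [smul_sub] at h3
  rw [mul_smul]
  convert h3 using 1
  ring

lemma Acts.pow {P : Ideal (𝓞 E)} {σ : G} {c : 𝓞 E} (hσP : σ • P = P) (hσ : Acts P σ c) (k : ℕ) :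
    Acts P (σ ^ k) (c ^ k) := by
  induction k with
  | zero => rw [pow_zero, pow_zero]; exact Acts.one P
  | succ k ih => rw [pow_succ', pow_succ']; exact Acts.mul hσP hσ ih

lemma Acts.conj {P : Ideal (𝓞 E)} {φ τ : G} {c : 𝓞 E} {q : ℕ} (hφP : φ • P = P)
    (hφ : ∀ x : 𝓞 E, φ • x - x ^ q ∈ P) (hτ : Acts P τ c) : Acts P (φ * τ * φ⁻¹) (c ^ q) := by
  intro x hx
  have hx' : φ⁻¹ • x ∈ P := smul_mem_self (inv_smul_eq hφP) hx
  have h1 : φ • (τ • (φ⁻¹ • x) - c * (φ⁻¹ • x)) ∈ P ^ 2 := smul_mem_pow hφP 2 (hτ _ hx')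
  have h2 : (φ • c - c ^ q) * x ∈ P ^ 2 := mul_mem_sq (hφ c) hx
  have h3 := add_mem h1 h2
  rw [smul_sub, smul_mul', smul_inv_smul] at h3
  rw [mul_smul, mul_smul]
  convert h3 using 1
  ring

lemma Acts.mul_inv {P : Ideal (𝓞 E)} {σ τ : G} {c : 𝓞 E} (hτP : τ • P = P)
    (hσ : Acts P σ c) (hτ : Acts P τ c) : Acts P (σ * τ⁻¹) 1 := by
  intro x hx
  have hx' : τ⁻¹ • x ∈ P := smul_mem_self (inv_smul_eq hτP) hx
  have h1 := hσ _ hx'
  have h2 := hτ _ hx'
  rw [smul_inv_smul] at h2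
  have h3 := sub_mem h1 h2
  rw [mul_smul]
  convert h3 using 1
  ring

lemma Acts.congr {P : Ideal (𝓞 E)} {σ : G} {c d : 𝓞 E} (hσ : Acts P σ c) (h : c - d ∈ P) :
    Acts P σ d := by
  intro x hx
  have h1 := add_mem (hσ x hx) (mul_mem_sq h hx)
  convert h1 using 1
  ring

variable {P : Ideal (𝓞 E)} [hP : P.IsMaximal]

lemma ne_bot (P : Ideal (𝓞 E)) [hP : P.IsMaximal] : P ≠ ⊥ :=
  Ring.ne_bot_of_isMaximal_of_not_isField hP (RingOfIntegers.not_isField E)

lemma exists_pi (P : Ideal (𝓞 E)) [hP : P.IsMaximal] : ∃ π ∈ P, π ∉ P ^ 2 := by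
  have h1 : P ^ 2 < P := by
    have := Ideal.pow_succ_lt_pow (P := P) (ne_bot P) 1
    rwa [pow_one] at this
  exact Set.exists_of_ssubset h1

lemma Acts.uniq {σ : G} {c d : 𝓞 E} (h1 : Acts P σ c) (h2 : Acts P σ d) : c - d ∈ P := by
  obtain ⟨π, hπ, hπ2⟩ := exists_pi P
  have h3 := sub_mem (h2 π hπ) (h1 π hπ)
  have h4 : (c - d) * π ∈ P ^ 2 := by
    convert h3 using 1
    ring
  rcases Ideal.IsPrime.mul_mem_pow P h4 with h | h
  · exact h
  · exact absurd h hπ2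

lemma exists_acts {σ : G} (hσ : σ ∈ P.inertia G) : ∃ c, Acts P σ c := by
  have hσP : σ • P = P := Ideal.inertia_le_stabilizer P hσ
  obtain ⟨π, hπ, hπ2⟩ := exists_pi P
  have hgen : ∀ x ∈ P, ∃ a : 𝓞 E, ∃ y ∈ P ^ 2, π * a + y = x := by
    intro x hx
    exact Ideal.exists_mul_add_mem_pow_succ (i := 1) (ne_bot P) π x (by rwa [pow_one])
      hπ2 (by rwa [pow_one])
  obtain ⟨u, y, hy, hu⟩ := hgen (σ • π) (smul_mem_self hσP hπ)
  refine ⟨u, fun x hx => ?_⟩
  obtain ⟨a, z, hz, rfl⟩ := hgen x hx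
  have h1 : (σ • a - a) * (σ • π) ∈ P ^ 2 := mul_mem_sq (hσ a) (smul_mem_self hσP hπ)
  have h2 : σ • z ∈ P ^ 2 := smul_mem_pow hσP 2 hz
  have h3 : y * a ∈ P ^ 2 := Ideal.mul_mem_right _ _ hy
  have h4 : u * z ∈ P ^ 2 := Ideal.mul_mem_left _ _ hz
  have h5 := sub_mem (add_mem (add_mem h1 h2) h3) h4
  convert h5 using 1
  rw [smul_add, smul_mul', ← hu]
  ring

lemma sub_mem_pow {κ : G} (hκ : κ ∈ P.inertia G) (h1 : Acts P κ 1) (k : ℕ) :
    ∀ x ∈ P ^ k, κ • x - x ∈ P ^ (k + 1) := by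
  have hκP : κ • P = P := Ideal.inertia_le_stabilizer P hκ
  induction k with
  | zero =>
    intro x _
    rw [zero_add, pow_one]
    exact hκ x
  | succ k ih =>
    intro x hx
    rw [pow_succ] at hx
    refine Submodule.mul_induction_on hx ?_ ?_
    · intro a ha b hb
      have e1 : (κ • a - a) * (κ • b) ∈ P ^ (k + 1 + 1) := by
        rw [pow_succ]
        exact Ideal.mul_mem_mul (ih a ha) (smul_mem_self hκP hb)
      have e2 : a * (κ • b - b) ∈ P ^ (k + 1 + 1) := by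
        have h2 := h1 b hb
        rw [one_mul] at h2
        have : P ^ (k + 1 + 1) = P ^ k * P ^ 2 := by rw [← pow_add]
        rw [this]
        exact Ideal.mul_mem_mul ha h2
      convert add_mem e1 e2 using 1
      rw [smul_mul']
      ring
    · intro x y hx hy
      convert add_mem hx hy using 1
      rw [smul_add]
      ring

/-- an element of the inertia group acting trivially on `P / P ^ 2`, of order prime to the residue
characteristic, acts trivially -/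
theorem eq_of_acts_one {κ : G} (hκ : κ ∈ P.inertia G) (h1 : Acts P κ 1) {m : ℕ}
    (hm : κ ^ m = 1) (hmP : (m : 𝓞 E) ∉ P) (x : 𝓞 E) : κ • x = x := by
  by_contra hne
  have hκP : κ • P = P := Ideal.inertia_le_stabilizer P hκ
  set y := κ • x - x with hy
  have hy0 : y ≠ 0 := sub_ne_zero.2 hne
  -- choose `k` with `y` in `P ^ k` and not in `P ^ (k + 1)`
  have hex : ∃ k, y ∉ P ^ (k + 1) := by
    by_contra hcon
    push Not at hcon
    have h2 : (⨅ i : ℕ, P ^ i) = ⊥ := Ideal.iInf_pow_eq_bot_of_isDomain P hP.ne_top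
    have h3 : y ∈ (⨅ i : ℕ, P ^ i) := by
      rw [Ideal.mem_iInf]
      intro i
      cases i with
      | zero => rw [pow_zero, Ideal.one_eq_top]; exact Submodule.mem_top
      | succ i => exact hcon i
    rw [h2] at h3
    exact hy0 h3
  classical
  let k := Nat.find hex
  have hk : y ∉ P ^ (k + 1) := Nat.find_spec hex
  have hk' : y ∈ P ^ k := by
    rcases Nat.eq_zero_or_pos k with h0 | h0
    · rw [h0, pow_zero, Ideal.one_eq_top]; exact Submodule.mem_top
    · have h3 := Nat.find_min hex (Nat.sub_lt h0 one_pos)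
      push Not at h3
      have h4 : k - 1 + 1 = k := Nat.sub_add_cancel h0
      rwa [h4] at h3
  -- the powers
  have hpow : ∀ j : ℕ, κ ^ j • x - (x + j * y) ∈ P ^ (k + 1) := by
    intro j
    induction j with
    | zero => simp
    | succ j ih =>
      have e1 : κ • (κ ^ j • x - (x + j * y)) ∈ P ^ (k + 1) := smul_mem_pow hκP _ ih
      have e2 : κ • y - y ∈ P ^ (k + 1) := sub_mem_pow hκ h1 k y hk'
      have e3 : (j : 𝓞 E) * (κ • y - y) ∈ P ^ (k + 1) := Ideal.mul_mem_left _ _ e2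
      have e4 : κ • (j : 𝓞 E) = j := by
        exact map_natCast (MulSemiringAction.toRingHom G (𝓞 E) κ) j
      convert add_mem e1 e3 using 1
      rw [smul_sub, smul_add, smul_mul', e4, pow_succ', mul_smul]
      push_cast
      rw [hy]
      ring
  have h5 := hpow m
  rw [hm, one_smul] at h5
  have h6 : (m : 𝓞 E) * y ∈ P ^ (k + 1) := by
    have := neg_mem h5
    convert this using 1
    ring
  rcases Ideal.IsPrime.mul_mem_pow P h6 with h | h
  · exact hmP h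
  · exact hk h

/-- two elements of a tame inertia group with the same action on `P / P ^ 2` are equal -/
theorem eq_of_acts [FaithfulSMul G (𝓞 E)] [Finite G] (hI : (Nat.card (P.inertia G) : 𝓞 E) ∉ P)
    {σ τ : G} (hσI : σ ∈ P.inertia G) (hτI : τ ∈ P.inertia G) {c : 𝓞 E} (hσ : Acts P σ c)
    (hτ : Acts P τ c) : σ = τ := by
  have h1 : Acts P (σ * τ⁻¹) 1 := Acts.mul_inv (Ideal.inertia_le_stabilizer P hτI) hσ hτ
  have h2 : σ * τ⁻¹ ∈ P.inertia G := mul_mem hσI (inv_mem hτI)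
  have h3 : (σ * τ⁻¹) ^ Nat.card (P.inertia G) = 1 := by
    have := pow_card_eq_one' (x := (⟨σ * τ⁻¹, h2⟩ : P.inertia G))
    exact congrArg Subtype.val this
  have h4 : σ * τ⁻¹ = 1 := by
    apply FaithfulSMul.eq_of_smul_eq_smul (α := 𝓞 E)
    intro x
    rw [one_smul]
    exact eq_of_acts_one h2 h1 h3 hI x
  exact mul_inv_eq_one.1 h4

theorem conj_eq_pow [FaithfulSMul G (𝓞 E)] [Finite G] (hI : (Nat.card (P.inertia G) : 𝓞 E) ∉ P)
    {φ τ : G} {q : ℕ} (hφP : φ • P = P) (hφ : ∀ x : 𝓞 E, φ • x - x ^ q ∈ P)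
    (hτ : τ ∈ P.inertia G) : φ * τ * φ⁻¹ = τ ^ q := by
  obtain ⟨c, hc⟩ := exists_acts hτ
  have hτP : τ • P = P := Ideal.inertia_le_stabilizer P hτ
  refine eq_of_acts hI ?_ (pow_mem hτ q) (Acts.conj hφP hφ hc) (Acts.pow hτP hc q)
  intro x
  have h1 := hτ (φ⁻¹ • x)
  have h2 := smul_mem_self hφP h1
  rw [smul_sub, smul_inv_smul] at h2
  rw [mul_smul, mul_smul]
  exact h2

/-- the elements of a tame inertia group whose `M`-th power is trivial -/
theorem card_le_of_pow_eq_one [FaithfulSMul G (𝓞 E)] [Finite G]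
    (hI : (Nat.card (P.inertia G) : 𝓞 E) ∉ P) {M : ℕ} (hM : 0 < M) (W : Finset G)
    (hW : ∀ τ ∈ W, τ ∈ P.inertia G ∧ τ ^ M = 1) : W.card ≤ M := by
  classical
  have hdom : IsDomain (𝓞 E ⧸ P) := Ideal.Quotient.isDomain P
  have h1 : ∀ τ : W, ∃ c : 𝓞 E, Acts P (τ : G) c := fun τ => exists_acts (hW τ.1 τ.2).1
  choose c hc using h1
  have hinj : Function.Injective fun τ : W => (Ideal.Quotient.mk P (c τ)) := by
    intro τ σ h
    apply Subtype.ext
    exact eq_of_acts hI (hW τ.1 τ.2).1 (hW σ.1 σ.2).1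
      ((hc τ).congr (Ideal.Quotient.eq.1 h)) (hc σ)
  have hroot : ∀ τ : W, (Ideal.Quotient.mk P (c τ)) ∈
      (Polynomial.X ^ M - 1 : Polynomial (𝓞 E ⧸ P)).roots.toFinset := by
    intro τ
    have h2 : Acts P ((τ : G) ^ M) (c τ ^ M) :=
      Acts.pow (Ideal.inertia_le_stabilizer P (hW τ.1 τ.2).1) (hc τ) M
    rw [(hW τ.1 τ.2).2] at h2
    have h3 := Ideal.Quotient.eq.2 (Acts.uniq h2 (Acts.one P))
    have h4 : (Polynomial.X ^ M - 1 : Polynomial (𝓞 E ⧸ P)) ≠ 0 := by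
      have := Polynomial.X_pow_sub_C_ne_zero hM (1 : 𝓞 E ⧸ P)
      rwa [Polynomial.C_1] at this
    rw [Multiset.mem_toFinset, Polynomial.mem_roots h4, Polynomial.IsRoot]
    rw [map_pow, map_one] at h3
    simp [h3]
  have h5 : W.card ≤ (Polynomial.X ^ M - 1 : Polynomial (𝓞 E ⧸ P)).roots.toFinset.card := by
    have := Fintype.card_le_of_injective (fun τ : W => (⟨_, hroot τ⟩ :
      (Polynomial.X ^ M - 1 : Polynomial (𝓞 E ⧸ P)).roots.toFinset)) (by
        intro τ σ h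
        exact hinj (congrArg Subtype.val h))
    rwa [Fintype.card_coe, Fintype.card_coe] at this
  have h6 : (Polynomial.X ^ M - 1 : Polynomial (𝓞 E ⧸ P)).roots.toFinset.card ≤ M := by
    refine (Multiset.toFinset_card_le _).trans ?_
    refine (Polynomial.card_roots' _).trans ?_
    have := Polynomial.natDegree_X_pow_sub_C (n := M) (r := (1 : 𝓞 E ⧸ P))
    rw [Polynomial.C_1] at this
    exact this.le
  exact h5.trans h6

end acts

section galois

variable (K E : Type) [Field K] [NumberField K] [Field E] [NumberField E] [Algebra K E]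

instance faithful : FaithfulSMul (E ≃ₐ[K] E) (𝓞 E) := by
  constructor
  intro σ τ h
  ext x
  obtain ⟨a, b, hb, rfl⟩ := IsFractionRing.div_surjective (A := 𝓞 E) x
  have h1 : ∀ a : 𝓞 E, σ (algebraMap (𝓞 E) E a) = τ (algebraMap (𝓞 E) E a) := fun a =>
    congrArg (algebraMap (𝓞 E) E) (h a)
  rw [map_div₀, map_div₀, h1, h1]

/-- the Frobenius relation in a tame inertia group -/
theorem exists_frob [IsGalois K E] (P : Ideal (𝓞 E)) [hP : P.IsMaximal]
    (hI : (Nat.card (P.inertia (E ≃ₐ[K] E)) : 𝓞 E) ∉ P) :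
    ∃ φ : E ≃ₐ[K] E, ∀ τ ∈ P.inertia (E ≃ₐ[K] E),
      φ * τ * φ⁻¹ = τ ^ Nat.card (𝓞 K ⧸ P.comap (algebraMap (𝓞 K) (𝓞 E))) := by
  have hfin : Finite (𝓞 E ⧸ P) := P.finiteQuotientOfFreeOfNeBot (ne_bot P)
  obtain ⟨φ, hφ⟩ := IsArithFrobAt.exists_of_isInvariant (𝓞 K) (E ≃ₐ[K] E) P
  refine ⟨φ, fun τ hτ => ?_⟩
  exact conj_eq_pow hI (IsArithFrobAt.mem_stabilizer hφ) hφ hτ

end galois

end Pool.Agent.Helper68.RR
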