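import Mathlib
import Pool.Agent.Helper68.RR.Fin
import Pool.Agent.Helper16.TR.Defs
import Pool.Agent.Helper16.TR.Ram

/-!
# Inertia groups at infinite level
-/

set_option autoImplicit false
set_option linter.unusedSectionVars false

open NumberField Pool.Agent.Helper16.TR

open scoped Pointwise

namespace Pool.Agent.Helper68.RR

variable {K Ω : Type} [Field K] [NumberField K] [Field Ω] [Algebra K Ω] [IsGalois K Ω]

section level

variable (F : IntermediateField K Ω)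

lemma res_coe [Normal K F] (γ : Ω ≃ₐ[K] Ω) (x : F) :
    ((AlgEquiv.restrictNormalHom F γ x : F) : Ω) = γ x :=
  AlgEquiv.restrictNormal_commutes γ F x

lemma algebraMap_smul [Normal K F] (γ : Ω ≃ₐ[K] Ω) (x : 𝓞 F) :
    algebraMap (𝓞 F) (𝓞 Ω) (AlgEquiv.restrictNormalHom F γ • x) =
      γ • algebraMap (𝓞 F) (𝓞 Ω) x := by
  apply RingOfIntegers.ext
  exact res_coe F γ x

lemma res_mem_inertia [Normal K F] (P : Ideal (𝓞 Ω)) {γ : Ω ≃ₐ[K] Ω}
    (hγ : γ ∈ P.inertia (Ω ≃ₐ[K] Ω)) :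
    AlgEquiv.restrictNormalHom F γ ∈
      (P.comap (algebraMap (𝓞 F) (𝓞 Ω))).inertia (F ≃ₐ[K] F) := by
  intro x
  change algebraMap (𝓞 F) (𝓞 Ω) (AlgEquiv.restrictNormalHom F γ • x - x) ∈ P
  rw [map_sub, algebraMap_smul]
  exact hγ _

lemma card_inertia_of_tame [NumberField F] [IsGalois K F] {S : Set (Ideal (𝓞 K))} {H : Type}
    [Group H] {ρ : (Ω ≃ₐ[K] Ω) →* H} (hT : TameIn K Ω S ρ)
    (hF : F ≤ IntermediateField.fixedField ρ.ker) (P : Ideal (𝓞 F)) [hP : P.IsMaximal] :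
    (P.comap (algebraMap (𝓞 K) (𝓞 F)) ∉ S → Nat.card (P.inertia (F ≃ₐ[K] F)) = 1) ∧
    (P.comap (algebraMap (𝓞 K) (𝓞 F)) ∈ S →
      ¬ (ringChar (𝓞 K ⧸ P.comap (algebraMap (𝓞 K) (𝓞 F))) ∣
        Nat.card (P.inertia (F ≃ₐ[K] F)))) := by
  obtain ⟨e1, e2⟩ := exists_ramIdx K F P rfl
  rw [card_inertia K F P]
  refine hT F F.val ?_ P hP _ rfl _ e1 e2
  rintro _ ⟨x, rfl⟩
  exact hF x.2

lemma card_notMem_of_tame [NumberField F] [IsGalois K F] {S : Set (Ideal (𝓞 K))} {H : Type}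
    [Group H] {ρ : (Ω ≃ₐ[K] Ω) →* H} (hT : TameIn K Ω S ρ)
    (hF : F ≤ IntermediateField.fixedField ρ.ker) (P : Ideal (𝓞 F)) [hP : P.IsMaximal] :
    ((Nat.card (P.inertia (F ≃ₐ[K] F)) : ℕ) : 𝓞 F) ∉ P := by
  intro hmem
  obtain ⟨h1, h2⟩ := card_inertia_of_tame F hT hF P
  by_cases hS : P.comap (algebraMap (𝓞 K) (𝓞 F)) ∈ S
  · apply h2 hS
    rw [← CharP.cast_eq_zero_iff (𝓞 K ⧸ P.comap (algebraMap (𝓞 K) (𝓞 F))), ← map_natCast
      (Ideal.Quotient.mk (P.comap (algebraMap (𝓞 K) (𝓞 F)))), Ideal.Quotient.eq_zero_iff_mem,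
      Ideal.mem_comap, map_natCast]
    exact hmem
  · rw [h1 hS, Nat.cast_one] at hmem
    exact hP.ne_top ((Ideal.eq_top_iff_one _).2 hmem)

end level

/-- the finite Galois extension corresponding to an open normal subgroup -/
lemma exists_field (N : Subgroup (Ω ≃ₐ[K] Ω)) (hN : IsOpen (N : Set (Ω ≃ₐ[K] Ω))) [N.Normal] :
    ∃ F : IntermediateField K Ω, NumberField F ∧ IsGalois K F ∧ F.fixingSubgroup = N ∧
      F = IntermediateField.fixedField N := by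
  have hcl : IsClosed (N : Set (Ω ≃ₐ[K] Ω)) := Subgroup.isClosed_of_isOpen N hN
  let H : ClosedSubgroup (Ω ≃ₐ[K] Ω) := ⟨N, hcl⟩
  have h1 : (IntermediateField.fixedField N).fixingSubgroup = N :=
    InfiniteGalois.fixingSubgroup_fixedField H
  have h2 : FiniteDimensional K (IntermediateField.fixedField N) := by
    rw [← InfiniteGalois.isOpen_iff_finite]
    change IsOpen ((IntermediateField.fixedField N).fixingSubgroup : Set (Ω ≃ₐ[K] Ω))
    rw [h1]; exact hN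
  have h3 : IsGalois K (IntermediateField.fixedField N) := by
    rw [← InfiniteGalois.normal_iff_isGalois, h1]
    infer_instance
  exact ⟨_, NumberField.of_module_finite K _, h3, h1, rfl⟩

section tame

variable {S : Set (Ideal (𝓞 K))} {H : Type} [Group H] {ρ : (Ω ≃ₐ[K] Ω) →* H}
  (hT : TameIn K Ω S ρ) (P : Ideal (𝓞 Ω)) [hP : P.IsMaximal] (N : Subgroup (Ω ≃ₐ[K] Ω))
  (hN : IsOpen (N : Set (Ω ≃ₐ[K] Ω))) [N.Normal] (hker : ρ.ker ≤ N)

include hT hN hker hP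

lemma unram_mod (hPS : P.comap (algebraMap (𝓞 K) (𝓞 Ω)) ∉ S) :
    P.inertia (Ω ≃ₐ[K] Ω) ≤ N := by
  obtain ⟨F, nF, gF, hF, hF'⟩ := exists_field N hN
  have hle : F ≤ IntermediateField.fixedField ρ.ker := by
    rw [hF']; exact IntermediateField.fixedField_antitone hker
  have hPF : (P.comap (algebraMap (𝓞 F) (𝓞 Ω))).IsMaximal :=
    Ideal.isMaximal_comap_of_isIntegral_of_isMaximal P
  obtain ⟨h1, -⟩ := card_inertia_of_tame F hT hle (P.comap (algebraMap (𝓞 F) (𝓞 Ω)))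
  have h2 : Nat.card ((P.comap (algebraMap (𝓞 F) (𝓞 Ω))).inertia (F ≃ₐ[K] F)) = 1 := by
    apply h1
    rw [Ideal.comap_comap, ← IsScalarTower.algebraMap_eq]
    exact hPS
  intro γ hγ
  have h3 := res_mem_inertia F P hγ
  rw [Subgroup.card_eq_one] at h2
  rw [h2, Subgroup.mem_bot] at h3
  rw [← hF, ← IntermediateField.restrictNormalHom_ker]
  exact h3

lemma tame_mod {γ : Ω ≃ₐ[K] Ω} (hγ : γ ∈ P.inertia (Ω ≃ₐ[K] Ω)) {p k : ℕ} (hp : p.Prime)
    (hpP : (p : 𝓞 Ω) ∈ P) (hpow : γ ^ p ^ k ∈ N) : γ ∈ N := by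
  obtain ⟨F, nF, gF, hF, hF'⟩ := exists_field N hN
  have hle : F ≤ IntermediateField.fixedField ρ.ker := by
    rw [hF']; exact IntermediateField.fixedField_antitone hker
  have hPF : (P.comap (algebraMap (𝓞 F) (𝓞 Ω))).IsMaximal :=
    Ideal.isMaximal_comap_of_isIntegral_of_isMaximal P
  have h1 := card_notMem_of_tame F hT hle (P.comap (algebraMap (𝓞 F) (𝓞 Ω)))
  have h3 := res_mem_inertia F P hγ
  rw [← hF, ← IntermediateField.restrictNormalHom_ker, MonoidHom.mem_ker] at hpow ⊢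
  rw [map_pow] at hpow
  set τ := AlgEquiv.restrictNormalHom F γ with hτ
  set I := (P.comap (algebraMap (𝓞 F) (𝓞 Ω))).inertia (F ≃ₐ[K] F) with hI
  have h4 : τ ^ Nat.card I = 1 := by
    have := pow_card_eq_one' (x := (⟨τ, h3⟩ : I))
    exact congrArg Subtype.val this
  have hcop : (p ^ k).Coprime (Nat.card I) := by
    apply Nat.Coprime.pow_left
    rw [Nat.Prime.coprime_iff_not_dvd hp]
    rintro ⟨c, hc⟩
    apply h1
    rw [hc, Nat.cast_mul]
    apply Ideal.mul_mem_right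
    rw [Ideal.mem_comap, map_natCast]
    exact hpP
  rw [← orderOf_eq_one_iff]
  exact Nat.eq_one_of_dvd_coprimes hcop (orderOf_dvd_of_pow_eq_one hpow)
    (orderOf_dvd_of_pow_eq_one h4)

lemma frob_mod : ∃ φ : Ω ≃ₐ[K] Ω, ∀ γ ∈ P.inertia (Ω ≃ₐ[K] Ω),
    φ * γ * φ⁻¹ * (γ ^ Nat.card (𝓞 K ⧸ P.comap (algebraMap (𝓞 K) (𝓞 Ω))))⁻¹ ∈ N := by
  obtain ⟨F, nF, gF, hF, hF'⟩ := exists_field N hN
  have hle : F ≤ IntermediateField.fixedField ρ.ker := by
    rw [hF']; exact IntermediateField.fixedField_antitone hker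
  have hPF : (P.comap (algebraMap (𝓞 F) (𝓞 Ω))).IsMaximal :=
    Ideal.isMaximal_comap_of_isIntegral_of_isMaximal P
  have h1 := card_notMem_of_tame F hT hle (P.comap (algebraMap (𝓞 F) (𝓞 Ω)))
  obtain ⟨φ₀, hφ₀⟩ := exists_frob K F (P.comap (algebraMap (𝓞 F) (𝓞 Ω))) h1
  obtain ⟨φ, rfl⟩ := AlgEquiv.restrictNormalHom_surjective (F := K) (K₁ := F) Ω φ₀
  refine ⟨φ, fun γ hγ => ?_⟩
  have h3 := hφ₀ _ (res_mem_inertia F P hγ)
  rw [Ideal.comap_comap, ← IsScalarTower.algebraMap_eq] at h3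
  rw [← hF, ← IntermediateField.restrictNormalHom_ker, MonoidHom.mem_ker, map_mul, map_mul,
    map_mul, map_inv, map_inv, map_pow, h3, mul_inv_cancel]

lemma card_mod {M : ℕ} (hM : 0 < M) (W : Finset (Ω ≃ₐ[K] Ω))
    (hW : ∀ γ ∈ W, γ ∈ P.inertia (Ω ≃ₐ[K] Ω) ∧ γ ^ M ∈ N)
    (hW2 : ∀ γ ∈ W, ∀ δ ∈ W, γ * δ⁻¹ ∈ N → γ = δ) : W.card ≤ M := by
  classical
  obtain ⟨F, nF, gF, hF, hF'⟩ := exists_field N hN
  have hle : F ≤ IntermediateField.fixedField ρ.ker := by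
    rw [hF']; exact IntermediateField.fixedField_antitone hker
  have hPF : (P.comap (algebraMap (𝓞 F) (𝓞 Ω))).IsMaximal :=
    Ideal.isMaximal_comap_of_isIntegral_of_isMaximal P
  have h1 := card_notMem_of_tame F hT hle (P.comap (algebraMap (𝓞 F) (𝓞 Ω)))
  have hmem : ∀ γ : Ω ≃ₐ[K] Ω, γ ∈ N ↔ AlgEquiv.restrictNormalHom F γ = 1 := by
    intro γ
    rw [← hF, ← IntermediateField.restrictNormalHom_ker, MonoidHom.mem_ker]
  have h2 := card_le_of_pow_eq_one h1 hM (W.image (AlgEquiv.restrictNormalHom F)) (by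
    intro τ hτ
    obtain ⟨γ, hγ, rfl⟩ := Finset.mem_image.1 hτ
    refine ⟨res_mem_inertia F P (hW γ hγ).1, ?_⟩
    rw [← map_pow, ← hmem]
    exact (hW γ hγ).2)
  rwa [Finset.card_image_of_injOn] at h2
  intro γ hγ δ hδ h
  apply hW2 γ hγ δ hδ
  rw [hmem, map_mul, map_inv, h, mul_inv_cancel]

end tame

end Pool.Agent.Helper68.RR
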